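import Pool.Agent.Lib_helper32.JO.N0

/-! Project JO, part B1, block MLX: more on `melL2` -/

set_option autoImplicit false

namespace Pool.Agent.JO

open Complex MeasureTheory Filter Topology
open UpperHalfPlane hiding I
open scoped MatrixGroups ComplexConjugate ENNReal

theorem melL2_congr_pr {c c' : ℝ → ℂ} (h : ∀ y, 0 < y → c y = c' y) : melL2 c = melL2 c' := by
  have h1 : fS (1 / 2) c = fS (1 / 2) c' := by
    funext u
    unfold fS
    rw [h _ (Real.exp_pos u)]
  funext κ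
  unfold melL2
  rw [h1]

theorem mlx_conv {c : ℝ → ℂ} (h : MelOK c) {s : ℂ} (h0 : 0 < s.re) (h1 : s.re < 1 / 2) :
    MellinConvergent c (-s) := by
  unfold MellinConvergent
  rw [integrableOn_Ioi_exp]
  have h2 := h.integrable_fS h0 h1
  refine Integrable.mono' h2.norm ?_ (Filter.Eventually.of_forall fun u => ?_)
  · have hm : Measurable fun u : ℝ => c (Real.exp u) := h.meas.comp Real.measurable_exp
    have hp : Measurable fun u : ℝ => ((Real.exp u : ℝ) : ℂ) ^ (-s - 1) := by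
      have : Continuous fun u : ℝ => ((Real.exp u : ℝ) : ℂ) ^ (-s - 1) := by
        refine Continuous.cpow (by fun_prop) continuous_const (fun u => ?_)
        rw [Complex.ofReal_mem_slitPlane]
        exact Real.exp_pos u
      exact this.measurable
    exact (Real.measurable_exp.smul (hp.smul hm)).aestronglyMeasurable
  · rw [norm_smul, norm_smul, norm_fS, Real.norm_of_nonneg (Real.exp_nonneg u),
      Complex.norm_cpow_eq_rpow_re_of_pos (Real.exp_pos u), ← Real.exp_mul]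
    have h3 : Real.exp u * (Real.exp (u * (-s - 1).re) * ‖c (Real.exp u)‖) =
        ‖c (Real.exp u)‖ * Real.exp (-(s.re * u)) := by
      rw [← mul_assoc, ← Real.exp_add, mul_comm]
      congr 2
      simp only [Complex.sub_re, Complex.neg_re, Complex.one_re]
      ring
    rw [h3]

theorem mlx_rel2 {c c' : ℝ → ℂ} (h : MelOK c) (h' : MelOK c') (G : ℂ → ℂ) (hG : Continuous G)
    (hrel : ∀ s : ℂ, 0 < s.re → s.re < 1 / 2 → mellin c' (-s) = mellin c (-s) * G s) :
    ∀ᵐ κ : ℝ, melL2 c' κ = melL2 c κ * G ((1 / 2 : ℝ) + (κ : ℂ) * I) := by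
  have h1 := melL2_rel (ι := Fin 2) (c := ![c', c]) (by
      intro i
      fin_cases i
      · exact h'
      · exact h) ![fun _ => 1, fun s => -G s] (by
      intro i κ
      fin_cases i
      · exact continuous_const.continuousWithinAt
      · exact hG.neg.continuousWithinAt) (by
      intro s hs hs'
      simp only [Fin.sum_univ_two, Matrix.cons_val_zero, Matrix.cons_val_one]
      rw [hrel s hs hs']
      ring)
  filter_upwards [h1] with κ hκ
  simp only [Fin.sum_univ_two, Matrix.cons_val_zero, Matrix.cons_val_one] at hκ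
  linear_combination hκ

theorem melL2_smul_pr {c : ℝ → ℂ} (h : MelOK c) (a : ℂ) :
    ∀ᵐ κ : ℝ, melL2 (fun y => a * c y) κ = a * melL2 c κ := by
  have h1 := mlx_rel2 h (h.const_mul a) (fun _ => a) continuous_const (by
    intro s _ _
    have := mellin_const_smul c (-s) a
    simp only [smul_eq_mul] at this
    rw [this, mul_comm])
  filter_upwards [h1] with κ hκ
  rw [hκ, mul_comm]

theorem mlx_add {c c' : ℝ → ℂ} (h : MelOK c) (h' : MelOK c') :
    ∀ᵐ κ : ℝ, melL2 (fun y => c y + c' y) κ = melL2 c κ + melL2 c' κ := by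
  have h1 := melL2_rel (ι := Fin 3) (c := ![fun y => c y + c' y, c, c']) (by
      intro i
      fin_cases i
      · exact h.add h'
      · exact h
      · exact h') ![fun _ => 1, fun _ => -1, fun _ => -1] (by
      intro i κ
      fin_cases i
      · exact continuous_const.continuousWithinAt
      · exact continuous_const.continuousWithinAt
      · exact continuous_const.continuousWithinAt) (by
      intro s hs hs'
      simp only [Fin.sum_univ_three, Matrix.cons_val_zero, Matrix.cons_val_one, Matrix.cons_val]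
      have e1 : mellin (fun y => c y + c' y) (-s) = mellin c (-s) + mellin c' (-s) := by
        unfold mellin
        rw [← integral_add (mlx_conv h hs hs') (mlx_conv h' hs hs')]
        simp only [smul_add]
      rw [e1]
      ring)
  filter_upwards [h1] with κ hκ
  simp only [Fin.sum_univ_three, Matrix.cons_val_zero, Matrix.cons_val_one, Matrix.cons_val] at hκ
  linear_combination hκ

theorem mlx_zero : ∀ᵐ κ : ℝ, melL2 (fun _ => 0) κ = 0 := by
  have h0 : MelOK (fun _ => 0) := by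
    have := MelOK.sum (∅ : Finset ℕ) (c := fun _ _ => 0) (by simp)
    simpa using this
  filter_upwards [melL2_smul_pr h0 0] with κ hκ
  simpa using hκ

theorem mlx_sum {ι : Type*} (s : Finset ι) {c : ι → ℝ → ℂ} (h : ∀ i ∈ s, MelOK (c i)) :
    ∀ᵐ κ : ℝ, melL2 (fun y => ∑ i ∈ s, c i y) κ = ∑ i ∈ s, melL2 (c i) κ := by
  classical
  induction s using Finset.induction_on with
  | empty =>
    simpa using mlx_zero
  | insert a s ha ih =>
    have h1 := ih fun i hi => h i (Finset.mem_insert_of_mem hi)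
    have h2 := mlx_add (h a (Finset.mem_insert_self a s))
      (MelOK.sum s fun i hi => h i (Finset.mem_insert_of_mem hi))
    filter_upwards [h1, h2] with κ e1 e2
    rw [Finset.sum_insert ha, ← e1, ← e2]
    congr 1
    funext y
    rw [Finset.sum_insert ha]

theorem mlx_comp {c : ℝ → ℂ} (h : MelOK c) {b : ℝ} (hb : 0 < b)
    (hbd : ∃ B, ∀ y, ‖c y‖ ≤ B) :
    MelOK (fun y => c (b * y)) ∧ ∀ᵐ κ : ℝ, melL2 (fun y => c (b * y)) κ =
      cexp (Real.log b * ((1 / 2 : ℝ) + (κ : ℂ) * I)) * melL2 c κ := by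
  have h' : MelOK (fun y => c (b * y)) := h.comp_mul hb (by
    obtain ⟨B, hB⟩ := hbd
    exact ⟨B, fun y _ => hB y⟩)
  refine ⟨h', ?_⟩
  have h1 := mlx_rel2 h h' (fun s => cexp (Real.log b * s)) (by fun_prop) (by
    intro s _ _
    rw [mellin_comp_mul_left c (-s) hb, neg_neg, smul_eq_mul, mul_comm]
    congr 1
    rw [Complex.cpow_def_of_ne_zero (by exact_mod_cast hb.ne'), ← Complex.ofReal_log hb.le])
  filter_upwards [h1] with κ hκ
  rw [hκ, mul_comm]

/-- the Mellin transform of the amplifier -/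
theorem hm_mel_pr {N : ℕ} [NeZero N] {PP : Finset ℕ} (hPP : ∀ p ∈ PP, p.Prime ∧ ¬ p ∣ N) (l : ℂ)
    {g : ℂ → ZMod N × ZMod N → ℂ} {a : ℝ} (hG : ∀ v ∈ PV N, MelOK fun y => g (xa a y) v)
    (hb : ∃ B : ℝ, ∀ x, ∀ v ∈ PV N, ‖g x v‖ ≤ B) {v : ZMod N × ZMod N} (hv : v ∈ PV N) :
    MelOK (fun y => c2 l PP g (xa a y) v) ∧
    ∀ᵐ κ : ℝ, melL2 (fun y => c2 l PP g (xa a y) v) κ =
      App1 l PP (fun v' κ' => melL2 (fun y => g (xa a y) v') κ') v κ := by
  obtain ⟨B, hB⟩ := hb
  have hbd : ∀ v' ∈ PV N, ∃ B, ∀ y, ‖(fun y => g (xa a y) v') y‖ ≤ B := fun v' hv' =>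
    ⟨B, fun y => hB _ v' hv'⟩
  -- the three functions
  have key : ∀ p ∈ PP, MelOK (fun y => (p : ℂ)⁻¹ * g (xa a y / p) ((p : ZMod N)⁻¹ * v.1,
      (p : ZMod N)⁻¹ * v.2) + g (xa a y) v + (p : ℂ) * g (p * xa a y)
      ((p : ZMod N) * v.1, (p : ZMod N) * v.2)) ∧ ∀ᵐ κ : ℝ,
      melL2 (fun y => (p : ℂ)⁻¹ * g (xa a y / p) ((p : ZMod N)⁻¹ * v.1,
      (p : ZMod N)⁻¹ * v.2) + g (xa a y) v + (p : ℂ) * g (p * xa a y)
      ((p : ZMod N) * v.1, (p : ZMod N) * v.2)) κ =
      (p : ℂ) ^ (2 * κ * I) * melL2 (fun y => g (xa a y) ((p : ZMod N)⁻¹ * v.1,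
        (p : ZMod N)⁻¹ * v.2)) κ + melL2 (fun y => g (xa a y) v) κ +
      (p : ℂ) ^ (-(2 * κ * I)) * melL2 (fun y => g (xa a y) ((p : ZMod N) * v.1,
        (p : ZMod N) * v.2)) κ := by
    intro p hp
    obtain ⟨hpp, hpN⟩ := hPP p hp
    have hcop : p.Coprime N := (Nat.Prime.coprime_iff_not_dvd hpp).2 hpN
    have hp0 : (0 : ℝ) < p := by exact_mod_cast hpp.pos
    have hpC : (p : ℂ) ≠ 0 := by exact_mod_cast hpp.ne_zero
    have hunit : (p : ZMod N) * (p : ZMod N)⁻¹ = 1 := ZMod.coe_mul_inv_eq_one p hcop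
    set v1 : ZMod N × ZMod N := ((p : ZMod N)⁻¹ * v.1, (p : ZMod N)⁻¹ * v.2) with hv1
    set v2 : ZMod N × ZMod N := ((p : ZMod N) * v.1, (p : ZMod N) * v.2) with hv2
    have hv1m : v1 ∈ PV N := by
      apply ((mul_mem_PV v1 p).1 _).1
      have : ((p : ZMod N) * v1.1, (p : ZMod N) * v1.2) = v := by
        rw [hv1]
        simp only [← mul_assoc, hunit, one_mul]
      rw [this]
      exact hv
    have hv2m : v2 ∈ PV N := (mul_mem_PV v p).2 ⟨hv, hcop⟩
    have hx1 : ∀ y, xa a y / p = xa a ((p : ℝ) ^ 2 * y) := by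
      intro y
      unfold xa
      rw [Real.sqrt_mul (by positivity), Real.sqrt_sq hp0.le]
      push_cast
      rw [div_div, mul_comm (p : ℂ)]
    have hx2 : ∀ y, p * xa a y = xa a (((p : ℝ) ^ 2)⁻¹ * y) := by
      intro y
      unfold xa
      rw [Real.sqrt_mul (by positivity), Real.sqrt_inv, Real.sqrt_sq hp0.le]
      push_cast
      rw [div_mul_eq_div_div, div_inv_eq_mul]
      ring
    obtain ⟨m1, e1⟩ := mlx_comp (hG v1 hv1m) (show (0 : ℝ) < (p : ℝ) ^ 2 by positivity)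
      (hbd v1 hv1m)
    obtain ⟨m2, e2⟩ := mlx_comp (hG v2 hv2m) (show (0 : ℝ) < ((p : ℝ) ^ 2)⁻¹ by positivity)
      (hbd v2 hv2m)
    simp only [← hx1] at m1 e1
    simp only [← hx2] at m2 e2
    have m3 := (m1.const_mul (p : ℂ)⁻¹).add (hG v hv)
    have m4 := m3.add (m2.const_mul (p : ℂ))
    refine ⟨m4, ?_⟩
    filter_upwards [e1, e2, melL2_smul_pr m1 (p : ℂ)⁻¹, melL2_smul_pr m2 (p : ℂ),
      mlx_add (m1.const_mul (p : ℂ)⁻¹) (hG v hv), mlx_add m3 (m2.const_mul (p : ℂ))]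
      with κ f1 f2 f3 f4 f5 f6
    rw [f6, f5, f4, f3, f2, f1]
    have hexp : cexp (Real.log p) = p := by
      rw [← Complex.ofReal_exp, Real.exp_log hp0]
      simp
    have g1 : (p : ℂ)⁻¹ * cexp ((Real.log ((p : ℝ) ^ 2) : ℝ) * ((1 / 2 : ℝ) + (κ : ℂ) * I)) =
        (p : ℂ) ^ (2 * κ * I) := by
      rw [Complex.cpow_def_of_ne_zero hpC, Real.log_pow]
      have : (((2 : ℕ) * Real.log p : ℝ) : ℂ) * ((1 / 2 : ℝ) + (κ : ℂ) * I) =
          Real.log p + Complex.log p * (2 * κ * I) := by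
        have : Complex.log p = (Real.log p : ℂ) := by
          rw [Complex.ofReal_log hp0.le]; simp
        rw [this]
        push_cast
        ring
      rw [this, Complex.exp_add, hexp, ← mul_assoc, inv_mul_cancel₀ hpC, one_mul]
    have g2 : (p : ℂ) * cexp ((Real.log (((p : ℝ) ^ 2)⁻¹) : ℝ) * ((1 / 2 : ℝ) + (κ : ℂ) * I)) =
        (p : ℂ) ^ (-(2 * κ * I)) := by
      rw [Complex.cpow_def_of_ne_zero hpC, Real.log_inv, Real.log_pow]
      have : ((-((2 : ℕ) * Real.log p) : ℝ) : ℂ) * ((1 / 2 : ℝ) + (κ : ℂ) * I) =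
          -(Real.log p : ℂ) + Complex.log p * (-(2 * κ * I)) := by
        have : Complex.log p = (Real.log p : ℂ) := by
          rw [Complex.ofReal_log hp0.le]; simp
        rw [this]
        push_cast
        ring
      rw [this, Complex.exp_add, Complex.exp_neg, hexp, ← mul_assoc, mul_inv_cancel₀ hpC, one_mul]
    rw [← mul_assoc, g1, ← mul_assoc, g2]
  have m5 := MelOK.sum PP (fun p hp => (key p hp).1)
  have m6 := (hG v hv).const_mul l
  refine ⟨m6.add m5, ?_⟩
  have hae : ∀ᵐ κ : ℝ, ∀ p ∈ PP, melL2 (fun y => (p : ℂ)⁻¹ * g (xa a y / p)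
      ((p : ZMod N)⁻¹ * v.1, (p : ZMod N)⁻¹ * v.2) + g (xa a y) v + (p : ℂ) * g (p * xa a y)
      ((p : ZMod N) * v.1, (p : ZMod N) * v.2)) κ =
      (p : ℂ) ^ (2 * κ * I) * melL2 (fun y => g (xa a y) ((p : ZMod N)⁻¹ * v.1,
        (p : ZMod N)⁻¹ * v.2)) κ + melL2 (fun y => g (xa a y) v) κ +
      (p : ℂ) ^ (-(2 * κ * I)) * melL2 (fun y => g (xa a y) ((p : ZMod N) * v.1,
        (p : ZMod N) * v.2)) κ := by
    rw [Finset.eventually_all]
    intro p hp
    exact (key p hp).2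
  filter_upwards [hae, melL2_smul_pr (hG v hv) l, mlx_sum PP (fun p hp => (key p hp).1),
    mlx_add m6 m5] with κ f1 f2 f3 f4
  unfold App1 App
  have f5 : melL2 (fun y => c2 l PP g (xa a y) v) κ = _ := f4
  rw [f5, f2, f3]
  congr 1
  exact Finset.sum_congr rfl f1

end Pool.Agent.JO
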