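import Pool.Agent.Lib_helper32.JO.N2

/-! Project JO, part B1, block CFP: constant terms of `Ψ_w` -/

set_option autoImplicit false

namespace Pool.Agent.JO

open Complex MeasureTheory Filter Topology
open UpperHalfPlane hiding I
open scoped MatrixGroups ComplexConjugate ENNReal

/-- the point `t + i y` for `y > 0` -/
noncomputable def cfpZ (t y : ℝ) : ℍ :=
  ⟨⟨t, if 0 < y then y else 1⟩, by
    show 0 < (if 0 < y then y else 1)
    split_ifs with h
    · exact h
    · exact one_pos⟩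

theorem cfp_im {t y : ℝ} (hy : 0 < y) : (cfpZ t y).im = y := by
  show (if 0 < y then y else 1) = y
  rw [if_pos hy]

theorem cfp_re (t y : ℝ) : (cfpZ t y).re = t := rfl

theorem cfp_meas : Measurable fun q : ℝ × ℝ => cfpZ q.1 q.2 := by
  rw [← UpperHalfPlane.measurableEmbedding_coe.measurable_comp_iff]
  have h1 : (UpperHalfPlane.coe ∘ fun q : ℝ × ℝ => cfpZ q.1 q.2) = fun q : ℝ × ℝ =>
      (q.1 : ℂ) + ((if 0 < q.2 then q.2 else 1 : ℝ) : ℂ) * I := by
    funext q
    apply Complex.ext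
    · simp [cfpZ]
    · simp [cfpZ]
  rw [h1]
  have h2 : Measurable fun q : ℝ × ℝ => (if 0 < q.2 then q.2 else 1 : ℝ) :=
    Measurable.ite (measurableSet_lt measurable_const measurable_snd) measurable_snd
      measurable_const
  exact (Complex.measurable_ofReal.comp measurable_fst).add
    ((Complex.measurable_ofReal.comp h2).mul_const I)

theorem cfp_gx {y : ℝ} (hy : 0 < y) (a t : ℝ) : gx (xa a y) t = gg (cfpZ t y) a := by
  rw [gx_eq_gg, cfp_im hy, cfp_re]
  rfl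

theorem cfp_gx0 {y : ℝ} (hy : ¬ 0 < y) (a t : ℝ) : gx (xa a y) t = 1 := by
  have h1 : xa a y = 0 := by
    unfold xa
    rw [Real.sqrt_eq_zero_of_nonpos (not_lt.1 hy)]
    simp
  rw [h1]
  unfold gx
  rw [dif_pos rfl]

section

variable {N : ℕ} [NeZero N] {χ : DirichletCharacter ℂ N} {k : ℕ} {lam : ℕ → ℂ} {u : ℍ → ℂ}

theorem cfp_m1 (hu : WForm N χ k lam u) (s : QN N) (z : ((ℍ × ℝ) × ℝ) → ℍ)
    (h3 : Measurable fun r : (ℍ × ℝ) × ℝ => (r.1.1, (z r, (0 : ℝ)))) :
    Measurable fun r : (ℍ × ℝ) × ℝ => PsiF k u r.1.1 s (gg (z r) 0) := by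
  have hg : Continuous fun p : ℍ × (ℍ × ℝ) => gg p.2.1 p.2.2 := gg_cont.comp continuous_snd
  have hf : Continuous fun p : ℍ × (ℍ × ℝ) => (p.1, gg p.2.1 p.2.2) :=
    Continuous.prodMk continuous_fst hg
  have h1 := (psi_cont hu s).comp hf
  have h2 := h1.measurable
  have h4 := h2.comp h3
  exact h4

theorem cfp_m2 (hu : WForm N χ k lam u) (s : QN N) :
    Measurable fun r : (ℍ × ℝ) × ℝ => PsiF k u r.1.1 s 1 := by
  have hf : Continuous fun w : ℍ => (w, (1 : SL(2, ℝ))) :=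
    Continuous.prodMk continuous_id continuous_const
  have h1 := (psi_cont hu s).comp hf
  have h2 := h1.measurable
  have h3 : Measurable fun r : (ℍ × ℝ) × ℝ => r.1.1 := by fun_prop
  have h4 := h2.comp h3
  exact h4

theorem cfp_m3 (hu : WForm N χ k lam u) (s : QN N) :
    Measurable fun r : (ℍ × ℝ) × ℝ => PsiF k u r.1.1 s (gx (xa 0 r.1.2) r.2) := by
  have h2 : ∀ r : (ℍ × ℝ) × ℝ, PsiF k u r.1.1 s (gx (xa 0 r.1.2) r.2) =
      if 0 < r.1.2 then PsiF k u r.1.1 s (gg (cfpZ r.2 r.1.2) 0) else PsiF k u r.1.1 s 1 := by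
    intro r
    split_ifs with h
    · rw [cfp_gx h]
    · rw [cfp_gx0 h]
  simp_rw [h2]
  have h5 : Measurable fun r : (ℍ × ℝ) × ℝ => (r.2, r.1.2) := by fun_prop
  have h6 : Measurable fun r : (ℍ × ℝ) × ℝ => cfpZ r.2 r.1.2 := cfp_meas.comp h5
  have h7 : Measurable fun r : (ℍ × ℝ) × ℝ => r.1.1 := by fun_prop
  have h3 : Measurable fun r : (ℍ × ℝ) × ℝ => (r.1.1, (cfpZ r.2 r.1.2, (0 : ℝ))) :=
    Measurable.prodMk h7 (Measurable.prodMk h6 measurable_const)
  have h8 : Measurable fun r : (ℍ × ℝ) × ℝ => r.1.2 := by fun_prop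
  have h9 : MeasurableSet {r : (ℍ × ℝ) × ℝ | 0 < r.1.2} := measurableSet_lt measurable_const h8
  have h10 := cfp_m1 hu s (fun r => cfpZ r.2 r.1.2) h3
  exact Measurable.ite h9 h10 (cfp_m2 hu s)

theorem cf_meas_pr (hu : WForm N χ k lam u) (v : ZMod N × ZMod N) :
    Measurable fun q : ℍ × ℝ => CF (PsiF (N := N) k u q.1) (xa 0 q.2) v := by
  unfold CF
  refine Measurable.const_mul (Finset.measurable_sum _ fun s _ => ?_) _
  by_cases hs : bot s = v
  swap
  · simp only [if_neg hs]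
    exact measurable_const
  simp only [if_pos hs]
  have h1 := cfp_m3 hu s
  simp only [intervalIntegral.integral_of_le zero_le_one]
  exact (h1.stronglyMeasurable.integral_prod_right' (ν := volume.restrict (Set.Ioc 0 1))).measurable

theorem cf_meas_x_pr (hu : WForm N χ k lam u) (w : ℍ) (v : ZMod N × ZMod N) :
    Measurable fun x : ℂ => CF (PsiF (N := N) k u w) x v := by
  have h1 := CF_meas (psi_mf hu w) v
  have h2 : (fun x : ℂ => CF (PsiF (N := N) k u w) x v) = fun x =>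
      if x = 0 then CF (PsiF (N := N) k u w) 0 v else
        (if x = 0 then 0 else CF (PsiF (N := N) k u w) x v) := by
    funext x
    split_ifs with h
    · rw [h]
    · rfl
  rw [h2]
  exact Measurable.ite (measurableSet_eq) measurable_const h1

theorem cfp_norm (F : QN N → SL(2, ℝ) → ℂ) (x : ℂ) (v : ZMod N × ZMod N) {B : ℝ} (hB : 0 ≤ B)
    (h : ∀ (s : QN N) (t : ℝ), ‖F s (gx x t)‖ ≤ B) :
    ‖CF F x v‖ ≤ ((N : ℝ)⁻¹ * Fintype.card (QN N)) * B := by
  unfold CF
  rw [norm_mul, norm_inv, Complex.norm_natCast, mul_assoc]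
  refine mul_le_mul_of_nonneg_left ?_ (by positivity)
  refine (norm_sum_le _ _).trans ?_
  have h1 : ∀ s ∈ (Finset.univ : Finset (QN N)),
      ‖(if bot s = v then ∫ t in (0 : ℝ)..1, F s (gx x t) else 0)‖ ≤ B := by
    intro s _
    split_ifs
    · have := intervalIntegral.norm_integral_le_of_norm_le_const (a := 0) (b := 1)
        (f := fun t => F s (gx x t)) (C := B) (fun t _ => h s t)
      simpa using this
    · simpa using hB
  refine (Finset.sum_le_sum h1).trans ?_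
  rw [Finset.sum_const, nsmul_eq_mul]
  rfl

theorem cf_bdd_pr (hu : WForm N χ k lam u) :
    ∃ B : ℝ, 0 ≤ B ∧ ∀ (w : ℍ) (x : ℂ) (v : ZMod N × ZMod N),
      ‖CF (PsiF (N := N) k u w) x v‖ ≤ B := by
  obtain ⟨B, hB, h⟩ := psi_bdd hu
  exact ⟨((N : ℝ)⁻¹ * Fintype.card (QN N)) * B, by positivity, fun w x v =>
    cfp_norm _ x v hB (fun s t => h w s _)⟩

theorem cf_decay_pr (hu : WForm N χ k lam u) :
    ∃ C c : ℝ, 0 < c ∧ ∀ (w : ℍ) (a y : ℝ) (v : ZMod N × ZMod N), 1 ≤ y →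
      ‖CF (PsiF (N := N) k u w) (xa a y) v‖ ≤ C * Real.exp (-(c * y)) := by
  obtain ⟨C, c, hc, h⟩ := psi_decay hu
  refine ⟨((N : ℝ)⁻¹ * Fintype.card (QN N)) * |C|, c, hc, fun w a y v hy => ?_⟩
  have hy0 : 0 < y := by linarith
  rw [mul_assoc]
  refine cfp_norm _ _ v (by positivity) (fun s t => ?_)
  rw [cfp_gx hy0]
  have h1 := h w s (cfpZ t y) a (by rw [cfp_im hy0]; linarith)
  rw [cfp_im hy0] at h1
  refine h1.trans ?_
  gcongr
  exact le_abs_self C

end

end Pool.Agent.JO
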